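import Pool.Agent.Q80.KT.Stm

/-!
Project KT, job UP: the susceptibility of the critical random graph is `O(n ^ (1/3))`.
-/

set_option autoImplicit false

open Finset MeasureTheory Filter Topology
open scoped Classical

noncomputable section

namespace Q13.KT.UP

open Pool.Agent.Q80.KT Pool.Agent.Q287.SR

theorem pN_event (lam : ℝ) : ∀ᶠ n : ℕ in atTop, 0 ≤ pN lam n ∧ pN lam n ≤ 1 := by
  have h1 : Tendsto (fun n : ℕ => (n : ℝ) ^ ((1 : ℝ) / 3)) atTop atTop :=
    (tendsto_rpow_atTop (by norm_num)).comp tendsto_natCast_atTop_atTop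
  have h2 := h1.eventually_ge_atTop (-lam)
  have h3 := h1.eventually_ge_atTop (1 + |lam|)
  filter_upwards [h2, h3, eventually_ge_atTop 1] with n hn2 hn3 hn1
  have hn0 : (0 : ℝ) < n := by exact_mod_cast (by omega : 0 < n)
  have hn1' : (1 : ℝ) ≤ n := by exact_mod_cast hn1
  have h4 : (n : ℝ) ^ ((4 : ℝ) / 3) = n * (n : ℝ) ^ ((1 : ℝ) / 3) := by
    rw [show ((4 : ℝ) / 3) = 1 + 1 / 3 by norm_num, Real.rpow_add hn0, Real.rpow_one]
  have hr0 : 0 < (n : ℝ) ^ ((1 : ℝ) / 3) := Real.rpow_pos_of_pos hn0 _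
  have h5 : pN lam n = ((n : ℝ) ^ ((1 : ℝ) / 3) + lam) / (n * (n : ℝ) ^ ((1 : ℝ) / 3)) := by
    unfold pN
    rw [h4]
    field_simp
  rw [h5]
  constructor
  · apply div_nonneg
    · linarith
    · positivity
  · rw [div_le_one (by positivity)]
    have h6 : lam ≤ |lam| := le_abs_self lam
    have h7 : ((n : ℝ) ^ ((1 : ℝ) / 3)) ^ 3 = n := by
      rw [← Real.rpow_natCast, ← Real.rpow_mul hn0.le]
      norm_num
    set r := (n : ℝ) ^ ((1 : ℝ) / 3) with hr
    have h8 : (1 : ℝ) ≤ r := by
      have := abs_nonneg lam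
      linarith
    have h9 : (n : ℝ) = r ^ 3 := h7.symm
    rw [h9]
    nlinarith [mul_nonneg (sub_nonneg.2 h8) (sub_nonneg.2 h8), pow_le_pow_right₀ h8 (show 2 ≤ 4 by norm_num), sq_nonneg (r - 1), mul_le_mul hn3 (le_refl r) hr0.le (by linarith)]

theorem rch_eq (n : ℕ) (v : Fin n) (G : SimpleGraph (Fin n)) :
    rch {v} (univ \ {v}) G = univ.filter fun w => G.Reachable v w := by
  ext w
  have hU : ((({v} : Finset (Fin n)) ∪ (univ \ {v}) : Finset (Fin n)) : Set (Fin n)) = Set.univ := by
    ext y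
    simp
  unfold rch
  rw [mem_filter, mem_filter, hU]
  constructor
  · rintro ⟨_, x, hx, _, h⟩
    refine ⟨mem_univ _, ?_⟩
    rw [mem_singleton] at hx
    subst hx
    rw [SimpleGraph.reachable_iff_reflTransGen]
    exact Relation.ReflTransGen.mono (fun a b hab => hab.1) _ _ h
  · rintro ⟨_, h⟩
    refine ⟨mem_univ _, v, mem_singleton_self v, Set.mem_univ _, ?_⟩
    rw [SimpleGraph.reachable_iff_reflTransGen] at h
    exact Relation.ReflTransGen.mono (fun a b hab => ⟨hab, Set.mem_univ _, Set.mem_univ _⟩) _ _ h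

theorem t_UP (h1 : S_TAU) (h2 : S_RREC) (h3 : S_SUPER) : S_UP := by
  intro lam
  obtain ⟨C, hC, hev⟩ := h3 lam
  refine ⟨C, hC, ?_⟩
  filter_upwards [hev, pN_event lam, eventually_ge_atTop 2] with n ⟨H, hH0, hH1, hH2⟩ ⟨hp0, hp1⟩ hn
  set v : Fin n := ⟨0, by omega⟩ with hv
  have key := h2 n (pN lam n) H hp0 hp1 hH0 hH1 {v} (univ \ {v}) disjoint_sdiff
  have hcard : (univ \ {v} : Finset (Fin n)).card = n - 1 := by
    rw [card_sdiff_of_subset (subset_univ _), card_univ, Fintype.card_fin, card_singleton]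
  rw [card_singleton, hcard] at key
  have hle := key.trans hH2
  refine le_trans ?_ hle
  -- the expectation of the size of the component
  have hexp : Ex n (pN lam n) (fun G => ((rch {v} (univ \ {v}) G).card : ℝ)) =
      ∑ w : Fin n, Pr n (pN lam n) (fun G => G.Reachable v w) := by
    unfold Pr
    rw [← Ex_sum]
    congr 1
    funext G
    rw [rch_eq, card_filter]
    push_cast
    refine Finset.sum_congr rfl fun w _ => ?_
    by_cases hw : G.Reachable v w <;> simp [ind, hw]
  rw [hexp]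
  have htau : tau n (pN lam n) ≤ 1 := by
    have h4 := (h1 n (pN lam n)).1 ⟨0, by omega⟩ ⟨1, by omega⟩ (by
      intro h
      have := congrArg Fin.val h
      simp at this)
    rw [← h4]
    unfold Pr
    calc Ex n (pN lam n) (fun G => ind (G.Reachable ⟨0, by omega⟩ ⟨1, by omega⟩))
        ≤ Ex n (pN lam n) (fun _ => 1) := Ex_mono hp0 hp1 fun G => by
          unfold ind; split_ifs <;> norm_num
      _ = 1 := Ex_one _
  have hterm : ∀ w : Fin n, tau n (pN lam n) ≤ Pr n (pN lam n) (fun G => G.Reachable v w) := by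
    intro w
    by_cases hw : v = w
    · have h5 : Pr n (pN lam n) (fun G => G.Reachable v w) = 1 := by
        unfold Pr
        have h6 : (fun G : SimpleGraph (Fin n) => ind (G.Reachable v w)) = fun _ => 1 := by
          funext G
          unfold ind
          rw [if_pos]
          rw [hw]
        rw [h6]
        exact Ex_one _
      rw [h5]
      exact htau
    · rw [(h1 n (pN lam n)).1 v w hw]
  calc (n : ℝ) * tau n (pN lam n) = ∑ _w : Fin n, tau n (pN lam n) := by
        rw [sum_const, card_univ, Fintype.card_fin, nsmul_eq_mul]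
    _ ≤ _ := sum_le_sum fun w _ => hterm w

end Q13.KT.UP
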